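import Pool.Agent.helper48.EXI.Spec1

/-! Row CUT of block EXI (MP_8f32d0_ag): cutting with one equation. -/

set_option autoImplicit false

namespace EXI

open AN
open MvPowerSeries (constantCoeff)

noncomputable section

theorem CUT_nonunit {R : Type} [CommRing R] [IsLocalRing R] (q : Ideal R) (hq : q.IsPrime) (b : R)
    (hb : ¬ IsUnit b) : ¬ IsUnit (Ideal.Quotient.mk q b) := by
  intro h
  obtain ⟨c, hc⟩ := h.exists_right_inv
  obtain ⟨c', rfl⟩ := Ideal.Quotient.mk_surjective c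
  rw [← map_mul, ← map_one (Ideal.Quotient.mk q), Ideal.Quotient.eq] at hc
  have h1 : b * c' - 1 ∈ IsLocalRing.maximalIdeal R := IsLocalRing.le_maximalIdeal hq.ne_top hc
  have h2 : b * c' ∈ IsLocalRing.maximalIdeal R :=
    Ideal.mul_mem_right _ _ ((IsLocalRing.mem_maximalIdeal b).mpr hb)
  have h3 : (1 : R) ∈ IsLocalRing.maximalIdeal R := by
    have := Ideal.sub_mem _ h2 h1
    rwa [sub_sub_cancel] at this
  exact (Ideal.ne_top_iff_one _).mp (IsLocalRing.maximalIdeal.isMaximal R).ne_top h3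

/-- elements of `V` -/
theorem CUT_unit {Ω : Type} [Field Ω] (V : ValuationSubring Ω) (v : V) :
    IsLocalRing.residue V v = 0 ↔ ¬ ((v : Ω)⁻¹ ∈ V ∧ (v : Ω) ≠ 0) := by
  rw [IsLocalRing.residue_eq_zero_iff, IsLocalRing.mem_maximalIdeal, mem_nonunits_iff, not_iff_not]
  constructor
  · intro h
    obtain ⟨w, hw⟩ := h.exists_right_inv
    have h1 : (v : Ω) * (w : Ω) = 1 := by exact_mod_cast congrArg (Subtype.val) hw
    refine ⟨?_, left_ne_zero_of_mul_eq_one h1⟩
    rw [inv_eq_of_mul_eq_one_right h1]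
    exact w.2
  · rintro ⟨h1, h2⟩
    refine IsUnit.of_mul_eq_one ⟨(v : Ω)⁻¹, h1⟩ ?_
    apply Subtype.ext
    exact mul_inv_cancel₀ h2

theorem CUT_integral {P R Ω : Type} [CommRing P] [CommRing R] [Field Ω] (φ₀ : P →+* R)
    (h₀ : φ₀.Finite) (φ : R →+* Ω) (V : ValuationSubring Ω) (hV : ∀ c, φ (φ₀ c) ∈ V) (r : R) :
    φ r ∈ V := by
  have h1 : φ₀.IsIntegralElem r := h₀.to_isIntegral r
  obtain ⟨F, hF, hr⟩ := h1
  let g : P →+* V := (φ.comp φ₀).codRestrict V hV
  have h2 : IsIntegral V (φ r) := by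
    refine ⟨F.map g, hF.map g, ?_⟩
    rw [Polynomial.eval₂_map]
    have h3 : (algebraMap V Ω).comp g = φ.comp φ₀ := by
      ext c; rfl
    rw [h3, ← Polynomial.hom_eval₂, hr, map_zero]
  obtain ⟨y, hy⟩ := IsIntegrallyClosed.isIntegral_iff.mp h2
  rw [← hy]
  exact y.2

theorem CUT_alg {P R : Type} [CommRing P] [IsDomain P] [CommRing R] [IsDomain R] (φ₀ : P →+* R)
    (h : φ₀.Finite) (hi : Function.Injective φ₀) (y : AlgebraicClosure (FractionRing R)) :
    ∃ G : Polynomial P, G ≠ 0 ∧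
      G.eval₂ (((algebraMap (FractionRing R) (AlgebraicClosure (FractionRing R))).comp
        (algebraMap R (FractionRing R))).comp φ₀) y = 0 := by
  let : Algebra P R := φ₀.toAlgebra
  have hfin : Module.Finite P R := h
  have halg1 : Algebra.IsAlgebraic P R := inferInstance
  have hfs : FaithfulSMul P R := (faithfulSMul_iff_algebraMap_injective P R).mpr hi
  have htf : Module.IsTorsionFree P (FractionRing R) :=
    Module.IsTorsionFree.trans_faithfulSMul P R (FractionRing R)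
  have halg2 : Algebra.IsAlgebraic P (FractionRing R) :=
    (IsFractionRing.isAlgebraic_iff' P R (FractionRing R)).mp halg1
  have halg4 : Algebra.IsAlgebraic P (AlgebraicClosure (FractionRing R)) :=
    Algebra.IsAlgebraic.trans P (FractionRing R) _
  obtain ⟨G, hG, hG0⟩ := halg4.isAlgebraic y
  refine ⟨G, hG, ?_⟩
  rw [Polynomial.aeval_def] at hG0
  exact hG0

/-- the inverse of a non-unit is not integral -/
theorem CUT_inv {R Ω : Type} [CommRing R] [Field Ω] (φ : R →+* Ω) (hφ : Function.Injective φ) (x : R)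
    (hx0 : x ≠ 0) (hx : ¬ IsUnit x) : ¬ φ.IsIntegralElem (φ x)⁻¹ := by
  rintro ⟨G, hG, hG0⟩
  have hφx : φ x ≠ 0 := fun h => hx0 ((map_eq_zero_iff φ hφ).mp h)
  let : Invertible (φ x)⁻¹ := ⟨φ x, mul_inv_cancel₀ hφx, inv_mul_cancel₀ hφx⟩
  have h1 : G.reverse.eval₂ φ (⅟ ((φ x)⁻¹)) = 0 := (Polynomial.eval₂_reverse_eq_zero_iff φ _ G).mpr hG0
  have h2 : ⅟ ((φ x)⁻¹) = φ x := rfl
  rw [h2, Polynomial.eval₂_at_apply] at h1
  have h3 : G.reverse.eval x = 0 := (map_eq_zero_iff φ hφ).mp h1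
  rw [← Polynomial.divX_mul_X_add G.reverse, Polynomial.eval_add, Polynomial.eval_mul, Polynomial.eval_X,
    Polynomial.eval_C, Polynomial.coeff_zero_reverse, hG.leadingCoeff] at h3
  apply hx
  refine IsUnit.of_mul_eq_one (-(Polynomial.eval x G.reverse.divX)) ?_
  linear_combination -h3

theorem CUT (hPA : PA_stmt) (hPC : PC_stmt) (hPI : PI_stmt) : CUT_stmt := by
  intro k _ _ N n q hq hC l hl
  by_cases hlq : l ∈ q
  · exact ⟨q, n + 1, hq, le_rfl, hlq, Nat.le_succ n, hC⟩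
  obtain ⟨φ₀, hφ₀i, hφ₀f⟩ := hC
  have hInf : Infinite k := IsAlgClosed.instInfinite
  -- the ring `R`
  have hdom : IsDomain (BB k N ⧸ q) := Ideal.Quotient.isDomain q
  have hloc : IsLocalRing (BB k N ⧸ q) :=
    IsLocalRing.of_surjective' (Ideal.Quotient.mk q) Ideal.Quotient.mk_surjective
  let F := FractionRing (BB k N ⧸ q)
  let Ω := AlgebraicClosure F
  let φ : BB k N ⧸ q →+* Ω := (algebraMap F Ω).comp (algebraMap (BB k N ⧸ q) F)
  have hφ : Function.Injective φ :=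
    (algebraMap F Ω).injective.comp (IsFractionRing.injective (BB k N ⧸ q) F)
  let ψ : BB k N →+* Ω := φ.comp (Ideal.Quotient.mk q)
  have hx0 : Ideal.Quotient.mk q l ≠ 0 := by
    intro h
    exact hlq (Ideal.Quotient.eq_zero_iff_mem.mp h)
  have hxu : ¬ IsUnit (Ideal.Quotient.mk q l) := by
    apply CUT_nonunit q hq
    rw [MvPowerSeries.isUnit_iff_constantCoeff, hl]
    exact not_isUnit_zero
  have hi := CUT_inv φ hφ _ hx0 hxu
  -- the ring `P`
  have hUFD : UniqueFactorizationMonoid (BB k (n + 1)) := hPA k (n + 1)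
  have hPdom : IsDomain (BB k (n + 1)) := NoZeroDivisors.to_isDomain _
  let φP : BB k (n + 1) →+* Ω := φ.comp φ₀.toRingHom
  have hφP : Function.Injective φP := hφ.comp hφ₀i
  have hnot : ¬ φP.IsIntegralElem (φ (Ideal.Quotient.mk q l))⁻¹ := by
    rintro ⟨G, hG, hG0⟩
    apply hi
    refine ⟨G.map φ₀.toRingHom, hG.map _, ?_⟩
    rw [Polynomial.eval₂_map]
    exact hG0
  have halg : ∀ y : Ω, ∃ G : Polynomial (BB k (n + 1)), G ≠ 0 ∧ G.eval₂ φP y = 0 := by
    intro y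
    exact CUT_alg φ₀.toRingHom hφ₀f hφ₀i y
  obtain ⟨π, hπ, V, hxV, hPV, hV⟩ := hPI (BB k (n + 1)) Ω φP hφP halg _ hnot
  have hRV : ∀ r, φ r ∈ V := CUT_integral φ₀.toRingHom hφ₀f φ V hPV
  let φV : BB k N ⧸ q →+* V := φ.codRestrict V hRV
  let ρ : BB k N →+* IsLocalRing.ResidueField V :=
    (IsLocalRing.residue V).comp (φV.comp (Ideal.Quotient.mk q))
  have hqq : q ≤ RingHom.ker ρ := by
    intro b hb
    rw [RingHom.mem_ker]
    have h1 : Ideal.Quotient.mk q b = 0 := Ideal.Quotient.eq_zero_iff_mem.mpr hb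
    simp only [ρ, RingHom.comp_apply, h1, map_zero]
  have hlρ : l ∈ RingHom.ker ρ := by
    rw [RingHom.mem_ker]
    have h1 : ρ l = IsLocalRing.residue V (φV (Ideal.Quotient.mk q l)) := rfl
    rw [h1, CUT_unit]
    rintro ⟨h2, -⟩
    exact hxV h2
  obtain ⟨φc, hφci, hφcf⟩ := hPC k n π hπ.ne_zero hπ.not_isUnit
  let θ : BB k N ⧸ q →ₐ[k] BB k N ⧸ (RingHom.ker ρ) := Ideal.Quotient.factorₐ k hqq
  have hθs : Function.Surjective θ := Ideal.Quotient.factor_surjective hqq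
  let β : BB k (n + 1) →ₐ[k] BB k N ⧸ (RingHom.ker ρ) := θ.comp φ₀
  have hβ : ∀ c, β c = 0 ↔ π ∣ c := by
    intro c
    obtain ⟨b, hb⟩ := Ideal.Quotient.mk_surjective (φ₀ c)
    have h1 : β c = Ideal.Quotient.mk (RingHom.ker ρ) b := by
      simp only [β, AlgHom.comp_apply, ← hb]
      rfl
    rw [h1, Ideal.Quotient.eq_zero_iff_mem, RingHom.mem_ker]
    have h2 : ρ b = IsLocalRing.residue V (φV (φ₀ c)) := by
      simp only [ρ, RingHom.comp_apply, hb]
    rw [h2, CUT_unit, ← not_iff_not, not_not]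
    exact hV c
  have hle : ∀ c ∈ Ideal.span {π}, β c = 0 := by
    intro c hc
    exact (hβ c).mpr (Ideal.mem_span_singleton.mp hc)
  let γ : (BB k (n + 1) ⧸ Ideal.span {π}) →ₐ[k] BB k N ⧸ (RingHom.ker ρ) :=
    Ideal.Quotient.liftₐ (Ideal.span {π}) β hle
  have hγi : Function.Injective γ := by
    rw [injective_iff_map_eq_zero]
    intro y hy
    obtain ⟨c, rfl⟩ := Ideal.Quotient.mk_surjective y
    have h1 : γ (Ideal.Quotient.mk (Ideal.span {π}) c) = β c := rfl
    rw [h1] at hy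
    exact Ideal.Quotient.eq_zero_iff_mem.mpr (Ideal.mem_span_singleton.mpr ((hβ c).mp hy))
  have hβf : β.toRingHom.Finite :=
    (RingHom.Finite.of_surjective θ.toRingHom hθs).comp hφ₀f
  have hγf : γ.toRingHom.Finite := by
    apply RingHom.Finite.of_comp_finite (f := Ideal.Quotient.mk (Ideal.span {π}))
    exact hβf
  exact ⟨RingHom.ker ρ, n, RingHom.ker_isPrime ρ, hqq, hlρ, le_rfl,
    ⟨γ.comp φc, hγi.comp hφci, hγf.comp hφcf⟩⟩

end

end EXI
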